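import Pool.Agent.X184.SS.Stm

/-! Project SS, part BD: boundedness of the operator. -/

set_option autoImplicit false

namespace Pool.Agent.X4.SS

open Finset Pool.Agent.X184.SS

theorem m_succ (k : ℕ) : m (k + 1) = m k ^ 4 := by
  unfold m
  rw [← pow_mul, ← pow_succ]

theorem m_ge (k : ℕ) : 16 ≤ m k := by
  have h1 : (4 : ℕ) ≤ 4 ^ (k + 1) := by
    calc 4 = 4 ^ 1 := by norm_num
      _ ≤ 4 ^ (k + 1) := Nat.pow_le_pow_right (by norm_num) (by omega)
  unfold m
  calc 16 = 2 ^ 4 := by norm_num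
    _ ≤ 2 ^ (4 ^ (k + 1)) := Nat.pow_le_pow_right (by norm_num) h1

theorem m_mono {k l : ℕ} (h : k ≤ l) : m k ≤ m l := by
  unfold m
  exact Nat.pow_le_pow_right (by norm_num) (Nat.pow_le_pow_right (by norm_num) (by omega))

theorem m_lt {k l : ℕ} (h : k < l) : 2 * m k < m l := by
  have h1 : m (k + 1) ≤ m l := m_mono h
  have h2 := m_ge k
  have h3 : 2 * m k < m k * m k := by nlinarith
  have h4 : m k * m k ≤ m k ^ 4 := by
    rw [← pow_two]
    exact Nat.pow_le_pow_right (by omega) (by norm_num)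
  rw [m_succ] at h1
  omega

theorem m_inj : Function.Injective m := by
  intro k l e
  rcases lt_trichotomy k l with h | h | h
  · have := m_lt h; omega
  · exact h
  · have := m_lt h; omega

theorem pow_le_m (l : ℕ) : 2 ^ (l + 2) ≤ m l := by
  unfold m
  apply Nat.pow_le_pow_right (by norm_num)
  have : l + 1 < 4 ^ (l + 1) := Nat.lt_pow_self (by norm_num)
  omega

theorem mem_A {j k : ℕ} : j ∈ A k ↔ m k ≤ j ∧ j ≤ 2 * m k := by
  unfold A
  rw [Finset.mem_Ico]
  omega

theorem card_A (k : ℕ) : (A k).card = m k + 1 := by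
  unfold A
  rw [Nat.card_Ico]
  omega

theorem Tv_le (x : ℕ → ℝ) (j M : ℕ) (hM : j < M) :
    |Tv x j| ≤ ∑ k ∈ range M, if j ∈ A k then |x (m k)| / (m k + 1) else 0 := by
  have hn : ∀ k : ℕ, (0 : ℝ) ≤ if j ∈ A k then |x (m k)| / (m k + 1) else 0 := by
    intro k
    split_ifs
    · positivity
    · exact le_rfl
  unfold Tv
  refine (Finset.abs_sum_le_sum_abs _ _).trans ?_
  calc ∑ k ∈ range (j + 1), |if j ∈ A k then x (m k) / ((m k : ℝ) + 1) else 0|
      = ∑ k ∈ range (j + 1), if j ∈ A k then |x (m k)| / ((m k : ℝ) + 1) else 0 := by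
        refine Finset.sum_congr rfl fun k _ => ?_
        split_ifs
        · rw [abs_div, abs_of_pos (by positivity : (0 : ℝ) < (m k : ℝ) + 1)]
        · exact abs_zero
    _ ≤ _ := Finset.sum_le_sum_of_subset_of_nonneg
        (fun i hi => Finset.mem_range.2 (by have := Finset.mem_range.1 hi; omega))
        (fun k _ _ => hn k)

theorem Tv_zero (x : ℕ → ℝ) (j : ℕ) (h : ¬ ∃ k, j ∈ A k) : Tv x j = 0 := by
  unfold Tv
  refine Finset.sum_eq_zero fun k _ => ?_
  rw [if_neg fun h1 => h ⟨k, h1⟩]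

theorem geo (M : ℕ) : ∑ k ∈ range M, (1 / 2 : ℝ) ^ (k + 1) ≤ 1 := by
  have h : ∑ k ∈ range M, (1 / 2 : ℝ) ^ (k + 1) = 1 - (1 / 2) ^ M := by
    induction M with
    | zero => simp
    | succ n ih =>
      rw [Finset.sum_range_succ, ih, pow_succ]
      ring
  rw [h]
  have : (0 : ℝ) ≤ (1 / 2) ^ M := by positivity
  linarith

theorem sing (hU : S_UNI) : ∀ (n a : ℕ), ({a} : Finset ℕ) ∈ Sch n
  | 0, a => by
    show ({a} : Finset ℕ).card ≤ 1
    simp
  | n + 1, a => by
    have h := hU n 1 (fun _ => {a}) (fun _ => sing hU n a)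
      (fun i j hij => absurd hij (by omega)) (fun i b hb => by omega)
    have e : (univ : Finset (Fin 1)).biUnion (fun _ => ({a} : Finset ℕ)) = {a} := by
      ext b
      simp
    rwa [e] at h

/-- the sum over the indices whose block meets `R` -/
theorem sumK (hH : ∀ (n : ℕ) (F G : Finset ℕ), F ∈ Sch n → G ⊆ F → G ∈ Sch n) (hU : S_UNI)
    (hS : S_SPR) (n : ℕ) (x : ℕ → ℝ) (C : ℝ) (hC : 0 ≤ C) (hx : ∀ G ∈ Sch n, ∑ j ∈ G, |x j| ≤ C)
    (R : Finset ℕ) (hR : R ∈ Sch n) (K : Finset ℕ) (hK : ∀ k ∈ K, ∃ h ∈ R, h ∈ A k) :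
    ∑ k ∈ K, |x (m k)| ≤ 2 * C := by
  classical
  rcases K.eq_empty_or_nonempty with h0 | hne
  · rw [h0, Finset.sum_empty]; linarith
  have : ∀ k, ∃ h, k ∈ K → h ∈ R ∧ h ∈ A k := by
    intro k
    by_cases hk : k ∈ K
    · obtain ⟨h, h1, h2⟩ := hK k hk
      exact ⟨h, fun _ => ⟨h1, h2⟩⟩
    · exact ⟨0, fun h => absurd h hk⟩
  choose hh hhp using this
  set k0 := K.min' hne with hk0
  have hk0m : k0 ∈ K := K.min'_mem hne
  rw [← Finset.add_sum_erase K _ hk0m]
  have e1 : |x (m k0)| ≤ C := by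
    have := hx {m k0} (sing hU n (m k0))
    simpa using this
  have e2 : ∑ k ∈ K.erase k0, |x (m k)| = ∑ j ∈ (K.erase k0).image m, |x j| := by
    rw [Finset.sum_image fun a _ b _ e => m_inj e]
  let S : ℕ → Set ℕ := fun h => {k' | k' ∈ K ∧ h < m k'}
  let f : ℕ → ℕ := fun h => m (sInf (S h))
  let R' : Finset ℕ := (K.image hh).filter (fun h => ∃ k' ∈ K, h < m k')
  have hSne : ∀ h ∈ R', (S h).Nonempty := by
    intro h hh'
    obtain ⟨k', h1, h2⟩ := (Finset.mem_filter.1 hh').2
    exact ⟨k', h1, h2⟩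
  have hlt : ∀ h ∈ R', h < f h := fun h hh' => (Nat.sInf_mem (hSne h hh')).2
  have hle : ∀ h, ∀ k ∈ K, h < m k → f h ≤ m k := fun h k hk h1 =>
    m_mono (Nat.sInf_le ⟨hk, h1⟩)
  have hR'R : R' ⊆ R := by
    intro h hh'
    obtain ⟨k, hk, rfl⟩ := Finset.mem_image.1 (Finset.mem_filter.1 hh').1
    exact (hhp k hk).1
  have hmono : StrictMonoOn f (R' : Set ℕ) := by
    intro a ha b hb hab
    obtain ⟨k, hk, rfl⟩ := Finset.mem_image.1 (Finset.mem_filter.1 (Finset.mem_coe.1 ha)).1
    obtain ⟨l, hl, rfl⟩ := Finset.mem_image.1 (Finset.mem_filter.1 (Finset.mem_coe.1 hb)).1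
    have h1 := mem_A.1 (hhp k hk).2
    have h2 := mem_A.1 (hhp l hl).2
    have hkl : k < l := by
      by_contra hcon
      push Not at hcon
      rcases Nat.eq_or_lt_of_le hcon with h | h
      · subst h; exact lt_irrefl _ hab
      · have := m_lt h
        omega
    have h3 := m_lt hkl
    have h4 := hle (hh k) l hl (by omega)
    have h5 := hlt (hh l) (Finset.mem_coe.1 hb)
    omega
  have hRf : R'.image f ∈ Sch n := hS n R' f (hH n R R' hR hR'R) hmono fun a ha => (hlt a ha).le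
  have hsub : (K.erase k0).image m ⊆ R'.image f := by
    intro j hj
    obtain ⟨k, hk, rfl⟩ := Finset.mem_image.1 hj
    rw [Finset.mem_erase] at hk
    have hne2 : (K.filter (· < k)).Nonempty :=
      ⟨k0, Finset.mem_filter.2 ⟨hk0m, lt_of_le_of_ne (K.min'_le k hk.2) (fun e => hk.1 e.symm)⟩⟩
    set p := (K.filter (· < k)).max' hne2 with hp
    have hpm : p ∈ K.filter (· < k) := Finset.max'_mem _ _
    rw [Finset.mem_filter] at hpm
    have h1 := mem_A.1 (hhp p hpm.1).2
    have h2 := m_lt hpm.2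
    refine Finset.mem_image.2 ⟨hh p, Finset.mem_filter.2 ⟨Finset.mem_image.2 ⟨p, hpm.1, rfl⟩,
      k, hk.2, by omega⟩, ?_⟩
    show m (sInf (S (hh p))) = m k
    congr 1
    apply le_antisymm
    · exact Nat.sInf_le ⟨hk.2, by omega⟩
    · have h3 : sInf (S (hh p)) ∈ S (hh p) := Nat.sInf_mem ⟨k, hk.2, by omega⟩
      obtain ⟨h4, h5⟩ := h3
      by_contra hcon
      push Not at hcon
      have h6 : sInf (S (hh p)) ≤ p := Finset.le_max' _ _ (Finset.mem_filter.2 ⟨h4, hcon⟩)
      have h7 := m_mono h6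
      omega
  have e3 := hx _ (hH n _ _ hRf hsub)
  rw [e2]
  linarith

theorem t : S_BD := by
  classical
  intro hU hH hS hD n x C hx F hF
  set F' := F.filter (fun j => ∃ k, j ∈ A k) with hF'
  have hF'S : F' ∈ Sch (n + 1) := hH (n + 1) F F' hF (Finset.filter_subset _ _)
  have e0 : ∑ j ∈ F, |Tv x j| = ∑ j ∈ F', |Tv x j| := by
    symm
    apply Finset.sum_subset (Finset.filter_subset _ _)
    intro j hj hj'
    rw [Tv_zero x j fun h => hj' (Finset.mem_filter.2 ⟨hj, h⟩), abs_zero]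
  obtain ⟨R, hR, H, hFH, hHp⟩ := hD n F' hF'S
  have hC : 0 ≤ C := by
    have := hx ∅ (hH n R ∅ hR (Finset.empty_subset _))
    simpa using this
  have hxm : ∀ a, |x a| ≤ C := by
    intro a
    have := hx {a} (sing hU n a)
    simpa using this
  have hRF : ∀ h ∈ R, ∃ k, h ∈ A k := by
    intro h hh
    have h1 : h ∈ F' := by
      rw [hFH, Finset.mem_biUnion]
      exact ⟨h, hh, (hHp h hh).1⟩
    exact (Finset.mem_filter.1 h1).2
  set M := F'.sup id + 1 with hM
  have hjM : ∀ j ∈ F', j < M := by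
    intro j hj
    have : j ≤ F'.sup id := Finset.le_sup (f := id) hj
    omega
  set K := (range M).filter (fun k => ∃ h ∈ R, h ∈ A k) with hK
  have hsum := sumK hH hU hS n x C hC hx R hR K fun k hk => (Finset.mem_filter.1 hk).2
  -- counting
  have hcnt : ∀ k ∈ range M, k ∉ K → (F'.filter (· ∈ A k)).card * 2 ^ (k + 1) ≤ m k := by
    intro k hk hkK
    have hno : ∀ h ∈ R, h ∉ A k := fun h h1 h2 => hkK (Finset.mem_filter.2 ⟨hk, h, h1, h2⟩)
    have hst : ∀ j ∈ F'.filter (· ∈ A k), ∃ h ∈ R, j ∈ H h ∧ ∃ l < k, h ≤ 2 * m l := by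
      intro j hj
      rw [Finset.mem_filter] at hj
      have h1 := hj.1
      rw [hFH, Finset.mem_biUnion] at h1
      obtain ⟨h, hhR, hjh⟩ := h1
      obtain ⟨l, hl⟩ := hRF h hhR
      refine ⟨h, hhR, hjh, l, ?_, (mem_A.1 hl).2⟩
      have h2 := (hHp h hhR).2.1 j hjh
      have h3 := mem_A.1 hj.2
      have h4 := mem_A.1 hl
      by_contra hcon
      push Not at hcon
      rcases Nat.eq_or_lt_of_le hcon with h5 | h5
      · exact hno h hhR (h5 ▸ hl)
      · have := m_lt h5
        omega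
    rcases k with _ | l
    · have : F'.filter (· ∈ A 0) = ∅ := by
        rw [Finset.eq_empty_iff_forall_notMem]
        intro j hj
        obtain ⟨_, _, _, l, hl, _⟩ := hst j hj
        exact absurd hl (Nat.not_lt_zero l)
      rw [this]
      simp
    · have hsub : F'.filter (· ∈ A (l + 1)) ⊆ (R.filter (· < 2 * m l + 1)).biUnion H := by
        intro j hj
        obtain ⟨h, h1, h2, l', h3, h4⟩ := hst j hj
        refine Finset.mem_biUnion.2 ⟨h, Finset.mem_filter.2 ⟨h1, ?_⟩, h2⟩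
        have := m_mono (show l' ≤ l by omega)
        omega
      have hc1 : (F'.filter (· ∈ A (l + 1))).card ≤ (2 * m l + 1) * (2 * m l + 1) := by
        refine (Finset.card_le_card hsub).trans ?_
        refine (Finset.card_biUnion_le_card_mul _ _ (2 * m l + 1) ?_).trans ?_
        · intro h hh
          rw [Finset.mem_filter] at hh
          have := (hHp h hh.1).2.2
          omega
        · refine Nat.mul_le_mul_right _ ?_
          have h5 : R.filter (· < 2 * m l + 1) ⊆ range (2 * m l + 1) := by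
            intro h hh
            exact Finset.mem_range.2 (Finset.mem_filter.1 hh).2
          simpa using Finset.card_le_card h5
      have ha := m_ge l
      have hp := pow_le_m l
      have h9 : (2 * m l + 1) * (2 * m l + 1) ≤ m l * (m l * m l) := by
        have h10 : (2 * m l + 1) * (2 * m l + 1) ≤ 9 * (m l * m l) := by nlinarith
        have h11 : 9 * (m l * m l) ≤ m l * (m l * m l) := Nat.mul_le_mul_right _ (by omega)
        exact h10.trans h11
      calc (F'.filter (· ∈ A (l + 1))).card * 2 ^ (l + 1 + 1)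
          ≤ (m l * (m l * m l)) * m l := Nat.mul_le_mul (hc1.trans h9) hp
        _ = m (l + 1) := by rw [m_succ]; ring
  have hterm : ∀ k ∈ range M, ((F'.filter (· ∈ A k)).card : ℝ) * (|x (m k)| / (m k + 1)) ≤
      (if k ∈ K then |x (m k)| else 0) + C * (1 / 2) ^ (k + 1) := by
    intro k hk
    have hpos : (0 : ℝ) < (m k : ℝ) + 1 := by positivity
    by_cases hkK : k ∈ K
    · rw [if_pos hkK]
      have h1 : ((F'.filter (· ∈ A k)).card : ℝ) ≤ (m k : ℝ) + 1 := by
        have h2 : (F'.filter (· ∈ A k)).card ≤ (A k).card :=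
          Finset.card_le_card fun j hj => (Finset.mem_filter.1 hj).2
        rw [card_A] at h2
        exact_mod_cast h2
      have h3 : ((F'.filter (· ∈ A k)).card : ℝ) * (|x (m k)| / (m k + 1)) ≤ |x (m k)| := by
        rw [mul_div_assoc', div_le_iff₀ hpos, mul_comm]
        exact mul_le_mul_of_nonneg_left h1 (abs_nonneg _)
      have h4 : 0 ≤ C * (1 / 2 : ℝ) ^ (k + 1) := by positivity
      linarith
    · rw [if_neg hkK, zero_add]
      have h1 : ((F'.filter (· ∈ A k)).card : ℝ) * 2 ^ (k + 1) ≤ m k := by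
        exact_mod_cast hcnt k hk hkK
      have h2 : ((F'.filter (· ∈ A k)).card : ℝ) ≤ (1 / 2) ^ (k + 1) * ((m k : ℝ) + 1) := by
        have h3 : (0 : ℝ) < 2 ^ (k + 1) := by positivity
        rw [one_div, inv_pow, inv_mul_eq_div, le_div_iff₀ h3]
        linarith
      calc ((F'.filter (· ∈ A k)).card : ℝ) * (|x (m k)| / (m k + 1))
          ≤ ((1 / 2) ^ (k + 1) * ((m k : ℝ) + 1)) * (C / (m k + 1)) := by
            apply mul_le_mul h2 _ (by positivity) (by positivity)
            exact div_le_div_of_nonneg_right (hxm _) hpos.le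
        _ = C * (1 / 2) ^ (k + 1) := by
            field_simp
  have e1 : ∑ j ∈ F', |Tv x j| ≤
      ∑ k ∈ range M, ((F'.filter (· ∈ A k)).card : ℝ) * (|x (m k)| / (m k + 1)) := by
    calc ∑ j ∈ F', |Tv x j|
        ≤ ∑ j ∈ F', ∑ k ∈ range M, (if j ∈ A k then |x (m k)| / ((m k : ℝ) + 1) else 0) :=
          Finset.sum_le_sum fun j hj => Tv_le x j M (hjM j hj)
      _ = ∑ k ∈ range M, ∑ j ∈ F', (if j ∈ A k then |x (m k)| / ((m k : ℝ) + 1) else 0) :=
          Finset.sum_comm
      _ = _ := by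
          refine Finset.sum_congr rfl fun k _ => ?_
          rw [← Finset.sum_filter, Finset.sum_const, nsmul_eq_mul]
  have e2 : ∑ k ∈ range M, ((if k ∈ K then |x (m k)| else 0) + C * (1 / 2 : ℝ) ^ (k + 1)) ≤
      2 * C + C := by
    rw [Finset.sum_add_distrib, ← Finset.mul_sum, ← Finset.sum_filter]
    have h1 : (range M).filter (· ∈ K) = K := by
      ext k
      rw [Finset.mem_filter]
      exact ⟨fun h => h.2, fun h => ⟨(Finset.mem_filter.1 h).1, h⟩⟩
    rw [h1]
    have h2 := mul_le_mul_of_nonneg_left (geo M) hC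
    linarith
  rw [e0]
  have e3 := Finset.sum_le_sum hterm
  linarith

end Pool.Agent.X4.SS
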